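import Mathlib

/-!
# Heat semigroup bound for a seminorm invariant under one-parameter groups

Explicit Euler scheme and a symmetric second difference, no compactness argument is needed.
-/

open Filter Topology Set

namespace Pool.Agent.Helper59.SG

section scalar

/-- symmetric second order Taylor bound from below -/
theorem sym_taylor {q q1 q2 q3 : ℝ → ℝ} (h0 : ∀ s, HasDerivAt q (q1 s) s)
    (h1 : ∀ s, HasDerivAt q1 (q2 s) s) (h2 : ∀ s, HasDerivAt q2 (q3 s) s) {C : ℝ}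
    (h3 : ∀ s, |q3 s| ≤ C) {s : ℝ} (hs : 0 ≤ s) :
    2 * q 0 + s ^ 2 * q2 0 - C * s ^ 3 ≤ q s + q (-s) := by
  have hC : 0 ≤ C := (abs_nonneg _).trans (h3 0)
  have hlip : ∀ a, |q2 a - q2 0| ≤ C * |a| := by
    intro a
    have := Convex.norm_image_sub_le_of_norm_hasDerivWithin_le (f := q2) (f' := q3) (s := univ)
      (C := C) (x := 0) (y := a) (fun x _ => (h2 x).hasDerivWithinAt) (fun x _ => h3 x) convex_univ
      trivial trivial
    simpa using this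
  have hneg : ∀ (r r' : ℝ → ℝ), (∀ s, HasDerivAt r (r' s) s) → ∀ t, HasDerivAt (fun t => r (-t))
      (-(r' (-t))) t := by
    intro r r' hr t
    have := (hr (-t)).comp t (hasDerivAt_neg t)
    exact this.congr_deriv (by ring)
  let H1 : ℝ → ℝ := fun t => q1 t - q1 (-t) - 2 * t * q2 0 + 3 * C * t ^ 2
  let H : ℝ → ℝ := fun t => q t + q (-t) - 2 * q 0 - t ^ 2 * q2 0 + C * t ^ 3
  have hH : ∀ t, HasDerivAt H (H1 t) t := by
    intro t
    have := ((((h0 t).add (hneg _ _ h0 t)).sub_const (2 * q 0)).sub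
      (((hasDerivAt_id t).pow 2).mul_const (q2 0))).add (((hasDerivAt_id t).pow 3).const_mul C)
    exact this.congr_deriv (by simp [H1]; ring)
  have hH1 : ∀ t, HasDerivAt H1 (q2 t + q2 (-t) - 2 * q2 0 + 6 * C * t) t := by
    intro t
    have := (((h1 t).sub (hneg _ _ h1 t)).sub
      (((hasDerivAt_id t).const_mul 2).mul_const (q2 0))).add (((hasDerivAt_id t).pow 2).const_mul (3 * C))
    exact this.congr_deriv (by simp; ring)
  have m1 : MonotoneOn H1 (Ici 0) := by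
    refine monotoneOn_of_deriv_nonneg (convex_Ici 0)
      (fun t _ => (hH1 t).continuousAt.continuousWithinAt)
      (fun t _ => (hH1 t).differentiableAt.differentiableWithinAt) ?_
    intro t ht
    rw [interior_Ici] at ht
    have ht' : 0 < t := ht
    rw [(hH1 t).deriv]
    have e1 := (abs_le.1 (hlip t)).1
    have e2 := (abs_le.1 (hlip (-t))).1
    rw [abs_neg] at e2
    rw [abs_of_pos ht'] at e1 e2
    nlinarith
  have n1 : ∀ t, 0 ≤ t → 0 ≤ H1 t := by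
    intro t ht
    have := m1 (mem_Ici.2 le_rfl) (mem_Ici.2 ht) ht
    simpa [H1] using this
  have m0 : MonotoneOn H (Ici 0) := by
    refine monotoneOn_of_deriv_nonneg (convex_Ici 0)
      (fun t _ => (hH t).continuousAt.continuousWithinAt)
      (fun t _ => (hH t).differentiableAt.differentiableWithinAt) ?_
    intro t ht
    rw [interior_Ici] at ht
    rw [(hH t).deriv]
    exact n1 t (le_of_lt ht)
  have := m0 (mem_Ici.2 le_rfl) (mem_Ici.2 hs) hs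
  simp only [H, neg_zero] at this
  nlinarith

/-- the bound for the square of a function -/
theorem sq_taylor {f f1 f2 f3 : ℝ → ℝ} (h0 : ∀ s, HasDerivAt f (f1 s) s)
    (h1 : ∀ s, HasDerivAt f1 (f2 s) s) (h2 : ∀ s, HasDerivAt f2 (f3 s) s) {D : ℝ}
    (b0 : ∀ s, |f s| ≤ D) (b1 : ∀ s, |f1 s| ≤ D) (b2 : ∀ s, |f2 s| ≤ D) (b3 : ∀ s, |f3 s| ≤ D)
    {s : ℝ} (hs : 0 ≤ s) :
    2 * f 0 ^ 2 + s ^ 2 * (2 * (f1 0 ^ 2 + f 0 * f2 0)) - 8 * D ^ 2 * s ^ 3 ≤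
      f s ^ 2 + f (-s) ^ 2 := by
  have hD : 0 ≤ D := (abs_nonneg _).trans (b0 0)
  refine sym_taylor (q := fun s => f s ^ 2) (q1 := fun s => 2 * (f s * f1 s))
    (q2 := fun s => 2 * (f1 s ^ 2 + f s * f2 s))
    (q3 := fun s => 6 * (f1 s * f2 s) + 2 * (f s * f3 s)) ?_ ?_ ?_ ?_ hs
  · intro s
    exact ((h0 s).pow 2).congr_deriv (by simp; ring)
  · intro s
    exact (((h0 s).mul (h1 s)).const_mul 2).congr_deriv (by ring)
  · intro s
    exact ((((h1 s).pow 2).add ((h0 s).mul (h2 s))).const_mul 2).congr_deriv (by simp; ring)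
  · intro s
    have hm : ∀ a b : ℝ, |a| ≤ D → |b| ≤ D → |a * b| ≤ D ^ 2 := by
      intro a b ha hb
      rw [abs_mul, sq]
      exact mul_le_mul ha hb (abs_nonneg _) hD
    have e1 := hm _ _ (b1 s) (b2 s)
    have e2 := hm _ _ (b0 s) (b3 s)
    rw [abs_le] at e1 e2 ⊢
    constructor <;> nlinarith [e1.1, e1.2, e2.1, e2.2]

end scalar

section heat

variable {V : Type*} [AddCommGroup V] [Module ℝ V] {N : Seminorm ℝ V}
  {ι : Type*} [Fintype ι] {T : ι → ℝ → V →ₗ[ℝ] V} {Z : ι → V →ₗ[ℝ] V}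

omit [Fintype ι] in
theorem hasDeriv (hT : ∀ i s v, N (T i s v) ≤ N v)
    (hTZ : ∀ i v, Tendsto (fun s : ℝ => N (s⁻¹ • (T i s v - v) - Z i v)) (𝓝[≠] 0) (𝓝 0))
    (hadd : ∀ i s t v, T i (s + t) v = T i s (T i t v))
    {L : V →ₗ[ℝ] ℝ} (hL : ∀ x, |L x| ≤ N x) (i : ι) (x : V) (s : ℝ) :
    HasDerivAt (fun s => L (T i s x)) (L (T i s (Z i x))) s := by
  rw [hasDerivAt_iff_tendsto_slope_zero]
  rw [tendsto_iff_norm_sub_tendsto_zero]
  refine squeeze_zero (fun _ => norm_nonneg _) (fun t => ?_) (hTZ i x)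
  rw [hadd, ← map_sub, smul_eq_mul, ← smul_eq_mul, ← map_smul, ← map_sub, ← map_sub, ← map_smul,
    ← map_sub, Real.norm_eq_abs]
  exact (hL _).trans (hT i s _)

omit [Fintype ι] in
theorem sq_diff (hT : ∀ i s v, N (T i s v) ≤ N v)
    (hTZ : ∀ i v, Tendsto (fun s : ℝ => N (s⁻¹ • (T i s v - v) - Z i v)) (𝓝[≠] 0) (𝓝 0))
    (hadd : ∀ i s t v, T i (s + t) v = T i s (T i t v)) (hzero : ∀ i v, T i 0 v = v)
    {L : V →ₗ[ℝ] ℝ} (hL : ∀ x, |L x| ≤ N x) (j : ι) (x : V) {D : ℝ}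
    (b0 : N x ≤ D) (b1 : N (Z j x) ≤ D) (b2 : N (Z j (Z j x)) ≤ D)
    (b3 : N (Z j (Z j (Z j x))) ≤ D) {s : ℝ} (hs : 0 ≤ s) :
    2 * L x ^ 2 + s ^ 2 * (2 * (L (Z j x) ^ 2 + L x * L (Z j (Z j x)))) - 8 * D ^ 2 * s ^ 3 ≤
      L (T j s x) ^ 2 + L (T j (-s) x) ^ 2 := by
  have h := sq_taylor (f := fun s => L (T j s x)) (f1 := fun s => L (T j s (Z j x)))
    (f2 := fun s => L (T j s (Z j (Z j x)))) (f3 := fun s => L (T j s (Z j (Z j (Z j x)))))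
    (hasDeriv hT hTZ hadd hL j x) (hasDeriv hT hTZ hadd hL j (Z j x))
    (hasDeriv hT hTZ hadd hL j (Z j (Z j x))) (D := D)
    (fun s => ((hL _).trans (hT j s _)).trans b0) (fun s => ((hL _).trans (hT j s _)).trans b1)
    (fun s => ((hL _).trans (hT j s _)).trans b2) (fun s => ((hL _).trans (hT j s _)).trans b3) hs
  simpa only [hzero] using h

/-- the functional of the maximum principle -/
noncomputable def Sf (Z : ι → V →ₗ[ℝ] V) (τ : ℝ) (w : V) (L : V →ₗ[ℝ] ℝ) : ℝ :=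
  τ * ∑ i, L (Z i w) ^ 2 + 1 / 2 * L w ^ 2

theorem Sf_comp (Z : ι → V →ₗ[ℝ] V) (τ : ℝ) (w : V) (L : V →ₗ[ℝ] ℝ) (S : V →ₗ[ℝ] V) :
    Sf Z τ w (L ∘ₗ S) = τ * ∑ i, L (S (Z i w)) ^ 2 + 1 / 2 * L (S w) ^ 2 := rfl

theorem mul_le_sq {a b D : ℝ} (ha : |a| ≤ D) (hb : |b| ≤ D) : a * b ≤ D ^ 2 := by
  have hD : 0 ≤ D := (abs_nonneg _).trans ha
  calc a * b ≤ |a * b| := le_abs_self _
    _ = |a| * |b| := abs_mul a b
    _ ≤ D * D := mul_le_mul ha hb (abs_nonneg _) hD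
    _ = D ^ 2 := by ring

/-- one step of the scheme -/
theorem step (hT : ∀ i s v, N (T i s v) ≤ N v)
    (hTZ : ∀ i v, Tendsto (fun s : ℝ => N (s⁻¹ • (T i s v - v) - Z i v)) (𝓝[≠] 0) (𝓝 0))
    (hadd : ∀ i s t v, T i (s + t) v = T i s (T i t v)) (hzero : ∀ i v, T i 0 v = v)
    (hcomm : ∀ i v, ∑ j, Z j (Z j (Z i v)) = Z i (∑ j, Z j (Z j v)))
    {m : ℝ} (hm : m = Fintype.card ι) (hm0 : 0 < m)
    {w : V} {D U τ M h s : ℝ} (hτ : 0 ≤ τ) (hτU : τ ≤ U) (_hh : 0 ≤ h) (hh1 : h ≤ 1)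
    (hs : 0 ≤ s) (hsh : s ^ 2 = 2 * m * h)
    (a0 : N w ≤ D) (a1 : ∀ j, N (Z j w) ≤ D) (a2 : ∀ j, N (Z j (Z j w)) ≤ D)
    (a3 : ∀ j, N (Z j (Z j (Z j w))) ≤ D)
    (c1 : ∀ i j, N (Z j (Z i w)) ≤ D) (c2 : ∀ i j, N (Z j (Z j (Z i w))) ≤ D)
    (c3 : ∀ i j, N (Z j (Z j (Z j (Z i w)))) ≤ D)
    (d0 : N (∑ j, Z j (Z j w)) ≤ D) (d1 : ∀ i, N (Z i (∑ j, Z j (Z j w))) ≤ D)
    (hM : ∀ L : V →ₗ[ℝ] ℝ, (∀ x, |L x| ≤ N x) → Sf Z τ w L ≤ M)
    {L : V →ₗ[ℝ] ℝ} (hL : ∀ x, |L x| ≤ N x) :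
    Sf Z (τ + h) (w + h • ∑ j, Z j (Z j w)) L ≤
      M + ((U * m + 1 / 2) * (4 * D ^ 2) * s ^ 3 + (3 * m + U * m + 1 / 2) * D ^ 2 * h ^ 2) := by
  set A : V := ∑ j, Z j (Z j w) with hA
  -- the inequality for one direction
  have hj : ∀ j, 2 * Sf Z τ w L + s ^ 2 * (τ * ∑ i, 2 * (L (Z j (Z i w)) ^ 2 +
      L (Z i w) * L (Z j (Z j (Z i w)))) + (L (Z j w) ^ 2 + L w * L (Z j (Z j w)))) -
      (τ * m + 1 / 2) * (8 * D ^ 2) * s ^ 3 ≤ 2 * M := by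
    intro j
    have h1 := hM (L ∘ₗ T j s) (fun x => (hL _).trans (hT j s x))
    have h2 := hM (L ∘ₗ T j (-s)) (fun x => (hL _).trans (hT j (-s) x))
    rw [Sf_comp] at h1 h2
    have h3 : ∑ i, (2 * L (Z i w) ^ 2 + s ^ 2 * (2 * (L (Z j (Z i w)) ^ 2 +
        L (Z i w) * L (Z j (Z j (Z i w))))) - 8 * D ^ 2 * s ^ 3) ≤
        ∑ i, (L (T j s (Z i w)) ^ 2 + L (T j (-s) (Z i w)) ^ 2) :=
      Finset.sum_le_sum fun i _ => sq_diff hT hTZ hadd hzero hL j (Z i w) (a1 i) (c1 i j) (c2 i j)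
        (c3 i j) hs
    have h4 := sq_diff hT hTZ hadd hzero hL j w a0 (a1 j) (a2 j) (a3 j) hs
    rw [Finset.sum_sub_distrib, Finset.sum_add_distrib, Finset.sum_add_distrib, ← Finset.mul_sum,
      ← Finset.mul_sum, Finset.sum_const, Finset.card_univ, nsmul_eq_mul, ← hm] at h3
    have h5 := mul_le_mul_of_nonneg_left h3 hτ
    unfold Sf
    nlinarith [h1, h2, h4, h5]
  -- sum over the directions
  have hsum : 2 * m * Sf Z τ w L + s ^ 2 * (2 * τ * ∑ j, ∑ i, L (Z j (Z i w)) ^ 2 +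
      2 * τ * ∑ i, L (Z i w) * L (Z i A) + ∑ j, L (Z j w) ^ 2 + L w * L A) -
      m * ((τ * m + 1 / 2) * (8 * D ^ 2) * s ^ 3) ≤ 2 * m * M := by
    have h1 := Finset.sum_le_sum (s := Finset.univ) fun j _ => hj j
    have e1 : ∑ j, ∑ i, L (Z i w) * L (Z j (Z j (Z i w))) = ∑ i, L (Z i w) * L (Z i A) := by
      rw [Finset.sum_comm]
      refine Finset.sum_congr rfl fun i _ => ?_
      rw [← Finset.mul_sum, ← map_sum, hcomm]
    have e2 : ∑ j, L w * L (Z j (Z j w)) = L w * L A := by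
      rw [← Finset.mul_sum, ← map_sum]
    have e3 : ∑ j, (2 * Sf Z τ w L + s ^ 2 * (τ * ∑ i, 2 * (L (Z j (Z i w)) ^ 2 +
      L (Z i w) * L (Z j (Z j (Z i w)))) + (L (Z j w) ^ 2 + L w * L (Z j (Z j w)))) -
      (τ * m + 1 / 2) * (8 * D ^ 2) * s ^ 3) = 2 * m * Sf Z τ w L + s ^ 2 * (2 * τ * ∑ j, ∑ i,
      L (Z j (Z i w)) ^ 2 + 2 * τ * ∑ i, L (Z i w) * L (Z i A) + ∑ j, L (Z j w) ^ 2 + L w * L A) -
      m * ((τ * m + 1 / 2) * (8 * D ^ 2) * s ^ 3) := by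
      rw [Finset.sum_sub_distrib, Finset.sum_add_distrib, Finset.sum_const, Finset.sum_const,
        Finset.card_univ, nsmul_eq_mul, nsmul_eq_mul, ← hm, ← Finset.mul_sum,
        Finset.sum_add_distrib, ← Finset.mul_sum, Finset.sum_add_distrib, e2]
      have e4 : ∑ j, ∑ i, 2 * (L (Z j (Z i w)) ^ 2 + L (Z i w) * L (Z j (Z j (Z i w)))) =
          2 * (∑ j, ∑ i, L (Z j (Z i w)) ^ 2 + ∑ i, L (Z i w) * L (Z i A)) := by
        rw [← e1, ← Finset.sum_add_distrib, Finset.mul_sum]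
        refine Finset.sum_congr rfl fun j _ => ?_
        rw [← Finset.sum_add_distrib, Finset.mul_sum]
      rw [e4]
      ring
    rw [e3, Finset.sum_const, Finset.card_univ, nsmul_eq_mul, ← hm] at h1
    linarith
  have hpos : 0 ≤ 2 * τ * ∑ j, ∑ i, L (Z j (Z i w)) ^ 2 :=
    mul_nonneg (by positivity) (Finset.sum_nonneg fun j _ => Finset.sum_nonneg fun i _ => sq_nonneg _)
  -- bounds
  have bQ : ∑ i, L (Z i w) * L (Z i A) ≤ m * D ^ 2 := by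
    calc ∑ i, L (Z i w) * L (Z i A) ≤ ∑ _i : ι, D ^ 2 :=
          Finset.sum_le_sum fun i _ => mul_le_sq ((hL _).trans (a1 i)) ((hL _).trans (d1 i))
      _ = m * D ^ 2 := by rw [Finset.sum_const, Finset.card_univ, nsmul_eq_mul, ← hm]
  have bR : ∑ i, L (Z i A) ^ 2 ≤ m * D ^ 2 := by
    calc ∑ i, L (Z i A) ^ 2 ≤ ∑ _i : ι, D ^ 2 :=
          Finset.sum_le_sum fun i _ => by
            rw [sq]; exact mul_le_sq ((hL _).trans (d1 i)) ((hL _).trans (d1 i))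
      _ = m * D ^ 2 := by rw [Finset.sum_const, Finset.card_univ, nsmul_eq_mul, ← hm]
  have bb : L A ^ 2 ≤ D ^ 2 := by
    rw [sq]; exact mul_le_sq ((hL _).trans d0) ((hL _).trans d0)
  have hR0 : 0 ≤ ∑ i, L (Z i A) ^ 2 := Finset.sum_nonneg fun i _ => sq_nonneg _
  have hexp : Sf Z (τ + h) (w + h • A) L = (τ + h) * (∑ i, L (Z i w) ^ 2 +
      2 * h * ∑ i, L (Z i w) * L (Z i A) + h ^ 2 * ∑ i, L (Z i A) ^ 2) +
      1 / 2 * (L w + h * L A) ^ 2 := by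
    unfold Sf
    rw [Finset.mul_sum _ _ (2 * h), Finset.mul_sum _ _ (h ^ 2), ← Finset.sum_add_distrib,
      ← Finset.sum_add_distrib]
    simp only [map_add, map_smul, smul_eq_mul]
    congr 2
    refine Finset.sum_congr rfl fun i _ => ?_
    ring
  rw [hexp]
  unfold Sf at hsum
  set P := ∑ i, L (Z i w) ^ 2
  set Q := ∑ i, L (Z i w) * L (Z i A)
  set R := ∑ i, L (Z i A) ^ 2
  set B := ∑ j, ∑ i, L (Z j (Z i w)) ^ 2
  have hD2 : 0 ≤ D ^ 2 := sq_nonneg D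
  have hs3 : 0 ≤ s ^ 3 := by positivity
  -- divide by `2 m`
  have hdiv : τ * P + 1 / 2 * L w ^ 2 + h * (2 * τ * Q + P + L w * L A) -
      (τ * m + 1 / 2) * (4 * D ^ 2) * s ^ 3 ≤ M := by
    have h1 : 0 ≤ s ^ 2 * (2 * τ * B) := mul_nonneg (sq_nonneg _) hpos
    have h2 : 2 * m * (τ * P + 1 / 2 * L w ^ 2 + h * (2 * τ * Q + P + L w * L A) -
        (τ * m + 1 / 2) * (4 * D ^ 2) * s ^ 3) ≤ 2 * m * M := by
      have h3 : s ^ 2 * (2 * τ * B + 2 * τ * Q + P + L w * L A) =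
        s ^ 2 * (2 * τ * B) + 2 * m * h * (2 * τ * Q + P + L w * L A) := by
        rw [hsh]; ring
      rw [h3] at hsum
      nlinarith [hsum, h1]
    exact le_of_mul_le_mul_left h2 (by positivity)
  have hU : (τ * m + 1 / 2) * (4 * D ^ 2) * s ^ 3 ≤ (U * m + 1 / 2) * (4 * D ^ 2) * s ^ 3 := by
    have : τ * m ≤ U * m := mul_le_mul_of_nonneg_right hτU hm0.le
    have h4 : 0 ≤ 4 * D ^ 2 * s ^ 3 := by positivity
    nlinarith
  have hQ2 : 2 * h ^ 2 * Q ≤ 2 * h ^ 2 * (m * D ^ 2) :=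
    mul_le_mul_of_nonneg_left bQ (by positivity)
  have hR2 : τ * h ^ 2 * R ≤ U * m * D ^ 2 * h ^ 2 := by
    calc τ * h ^ 2 * R ≤ τ * h ^ 2 * (m * D ^ 2) := mul_le_mul_of_nonneg_left bR (by positivity)
      _ = τ * (h ^ 2 * (m * D ^ 2)) := by ring
      _ ≤ U * (h ^ 2 * (m * D ^ 2)) := mul_le_mul_of_nonneg_right hτU (by positivity)
      _ = U * m * D ^ 2 * h ^ 2 := by ring
  have hR3 : h ^ 3 * R ≤ m * D ^ 2 * h ^ 2 := by
    calc h ^ 3 * R = h * (h ^ 2 * R) := by ring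
      _ ≤ 1 * (h ^ 2 * R) := mul_le_mul_of_nonneg_right hh1 (by positivity)
      _ ≤ 1 * (h ^ 2 * (m * D ^ 2)) := by
          rw [one_mul, one_mul]; exact mul_le_mul_of_nonneg_left bR (by positivity)
      _ = m * D ^ 2 * h ^ 2 := by ring
  have hb2 : 1 / 2 * h ^ 2 * L A ^ 2 ≤ 1 / 2 * D ^ 2 * h ^ 2 := by
    have := mul_le_mul_of_nonneg_left bb (by positivity : (0 : ℝ) ≤ 1 / 2 * h ^ 2)
    linarith
  nlinarith [hdiv, hU, hQ2, hR2, hR3, hb2]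

/-- the vectors of the explicit Euler scheme -/
noncomputable def eul {κ : Type*} (S : Finset κ) (v : κ → V) (μ : κ → ℝ) (h : ℝ) (k : ℕ) : V :=
  ∑ a ∈ S, (1 - h * μ a) ^ k • v a

theorem eul_succ {κ : Type*} {S : Finset κ} {v : κ → V} {μ : κ → ℝ}
    (hv : ∀ a ∈ S, ∑ j, Z j (Z j (v a)) = -(μ a) • v a) (h : ℝ) (k : ℕ) :
    eul S v μ h (k + 1) = eul S v μ h k + h • ∑ j, Z j (Z j (eul S v μ h k)) := by
  unfold eul
  simp only [map_sum, map_smul]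
  rw [Finset.sum_comm, Finset.smul_sum, ← Finset.sum_add_distrib]
  refine Finset.sum_congr rfl fun a ha => ?_
  rw [← Finset.smul_sum, hv a ha, smul_smul, smul_smul, ← add_smul]
  congr 1
  ring

omit [Fintype ι] in
theorem eul_bound {κ : Type*} {S : Finset κ} {v : κ → V} {μ : κ → ℝ} (X : V →ₗ[ℝ] V) {h u : ℝ}
    {k : ℕ} (hh : 0 ≤ h) (hk : k * h ≤ u) :
    N (X (eul S v μ h k)) ≤ ∑ a ∈ S, Real.exp (|μ a| * u) * N (X (v a)) := by
  unfold eul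
  rw [map_sum]
  refine (Finset.le_sum_of_subadditive N (map_zero N).le (map_add_le_add N) S _).trans ?_
  refine Finset.sum_le_sum fun a _ => ?_
  rw [map_smul, map_smul_eq_mul, norm_pow, Real.norm_eq_abs]
  refine mul_le_mul_of_nonneg_right ?_ (apply_nonneg N _)
  have h1 : |1 - h * μ a| ≤ Real.exp (h * |μ a|) := by
    calc |1 - h * μ a| ≤ |1| + |h * μ a| := abs_sub _ _
      _ = h * |μ a| + 1 := by rw [abs_one, abs_mul, abs_of_nonneg hh]; ring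
      _ ≤ Real.exp (h * |μ a|) := Real.add_one_le_exp _
  calc |1 - h * μ a| ^ k ≤ Real.exp (h * |μ a|) ^ k := pow_le_pow_left₀ (abs_nonneg _) h1 k
    _ = Real.exp (k * (h * |μ a|)) := (Real.exp_nat_mul _ k).symm
    _ ≤ Real.exp (|μ a| * u) := by
        apply Real.exp_le_exp.2
        calc (k : ℝ) * (h * |μ a|) = |μ a| * (k * h) := by ring
          _ ≤ |μ a| * u := mul_le_mul_of_nonneg_left hk (abs_nonneg _)

omit [Fintype ι] in
/-- norming functionals -/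
theorem exists_norming (N : Seminorm ℝ V) (x : V) :
    ∃ L : V →ₗ[ℝ] ℝ, (∀ y, |L y| ≤ N y) ∧ L x = N x := by
  by_cases hx : x = 0
  · exact ⟨0, fun y => by simp [apply_nonneg], by simp [hx]⟩
  have hf : ∀ y : (LinearPMap.mkSpanSingleton x (N x) hx : V →ₗ.[ℝ] ℝ).domain,
      (LinearPMap.mkSpanSingleton x (N x) hx : V →ₗ.[ℝ] ℝ) y ≤ N y := by
    rintro ⟨y, hy⟩
    obtain ⟨c, rfl⟩ := Submodule.mem_span_singleton.1 hy
    rw [show (LinearPMap.mkSpanSingleton x (N x) hx : V →ₗ.[ℝ] ℝ) ⟨c • x, hy⟩ = c • N x from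
      LinearPMap.mkSpanSingleton'_apply x (N x) _ c hy]
    rw [map_smul_eq_mul, smul_eq_mul]
    exact mul_le_mul_of_nonneg_right (le_abs_self c) (apply_nonneg N x)
  obtain ⟨g, hg1, hg2⟩ := exists_extension_of_le_sublinear
    (LinearPMap.mkSpanSingleton x (N x) hx : V →ₗ.[ℝ] ℝ) N
    (fun c hc y => by rw [map_smul_eq_mul, Real.norm_of_nonneg hc.le])
    (fun y z => map_add_le_add N y z) hf
  refine ⟨g, fun y => abs_le.2 ⟨?_, hg2 y⟩, ?_⟩
  · have := hg2 (-y)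
    rw [map_neg, map_neg_eq_map] at this
    linarith
  · have hx' : x ∈ (LinearPMap.mkSpanSingleton x (N x) hx : V →ₗ.[ℝ] ℝ).domain :=
      Submodule.mem_span_singleton_self x
    have h1 := hg1 ⟨x, hx'⟩
    rw [h1]
    exact LinearPMap.mkSpanSingleton_apply ℝ ℝ hx (N x)

/-- the bound after `n` steps -/
theorem iterate [Nonempty ι] (hT : ∀ i s v, N (T i s v) ≤ N v)
    (hTZ : ∀ i v, Tendsto (fun s : ℝ => N (s⁻¹ • (T i s v - v) - Z i v)) (𝓝[≠] 0) (𝓝 0))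
    (hadd : ∀ i s t v, T i (s + t) v = T i s (T i t v)) (hzero : ∀ i v, T i 0 v = v)
    (hcomm : ∀ i v, ∑ j, Z j (Z j (Z i v)) = Z i (∑ j, Z j (Z j v)))
    {κ : Type*} (S : Finset κ) (v : κ → V) (μ : κ → ℝ)
    (hv : ∀ a ∈ S, ∑ j, Z j (Z j (v a)) = -(μ a) • v a) {u : ℝ} (hu : 0 < u) :
    ∃ K K' : ℝ, ∀ n : ℕ, 0 < n → u ≤ n → ∀ L : V →ₗ[ℝ] ℝ, (∀ x, |L x| ≤ N x) →
      Sf Z u (eul S v μ (u / n) n) L ≤
        1 / 2 * N (∑ a ∈ S, v a) ^ 2 + (K * √(2 * Fintype.card ι * (u / n)) + K' * (u / n)) := by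
  set m : ℝ := (Fintype.card ι : ℝ) with hm
  have hm0 : 0 < m := by
    rw [hm]; exact_mod_cast Fintype.card_pos
  -- the bound `D`
  let F : Fin 9 → ι → ι → (V →ₗ[ℝ] V) := ![fun _ _ => LinearMap.id, fun j _ => Z j,
    fun j _ => Z j ∘ₗ Z j, fun j _ => Z j ∘ₗ Z j ∘ₗ Z j, fun i j => Z j ∘ₗ Z i,
    fun i j => Z j ∘ₗ Z j ∘ₗ Z i, fun i j => Z j ∘ₗ Z j ∘ₗ Z j ∘ₗ Z i,
    fun _ _ => ∑ j, Z j ∘ₗ Z j, fun i _ => Z i ∘ₗ (∑ j, Z j ∘ₗ Z j)]
  obtain ⟨D, hD⟩ := Finite.exists_le (fun p : Fin 9 × ι × ι =>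
    ∑ a ∈ S, Real.exp (|μ a| * u) * N (F p.1 p.2.1 p.2.2 (v a)))
  let i0 : ι := Classical.arbitrary ι
  refine ⟨(u * m + 1 / 2) * (4 * D ^ 2) * (2 * m * u), (3 * m + u * m + 1 / 2) * D ^ 2 * u, ?_⟩
  intro n hn hun
  have hn' : (0 : ℝ) < n := by exact_mod_cast hn
  set h : ℝ := u / n with hh
  have hh0 : 0 ≤ h := by positivity
  have hh1 : h ≤ 1 := by rw [hh, div_le_one hn']; exact hun
  set s : ℝ := √(2 * m * h) with hs
  have hs0 : 0 ≤ s := Real.sqrt_nonneg _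
  have hs2 : s ^ 2 = 2 * m * h := Real.sq_sqrt (by positivity)
  have hnh : n * h = u := by rw [hh]; field_simp
  have key : ∀ k : ℕ, k ≤ n → ∀ L : V →ₗ[ℝ] ℝ, (∀ x, |L x| ≤ N x) →
      Sf Z (k * h) (eul S v μ h k) L ≤ 1 / 2 * N (∑ a ∈ S, v a) ^ 2 +
        k * ((u * m + 1 / 2) * (4 * D ^ 2) * s ^ 3 + (3 * m + u * m + 1 / 2) * D ^ 2 * h ^ 2) := by
    intro k
    induction k with
    | zero =>
      intro _ L hL
      have e : eul S v μ h 0 = ∑ a ∈ S, v a := by simp [eul]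
      rw [e]
      unfold Sf
      have h1 := hL (∑ a ∈ S, v a)
      have h2 := sq_le_sq' (by linarith [(abs_le.1 h1).1]) (abs_le.1 h1).2
      simp only [Nat.cast_zero, zero_mul, zero_add, add_zero]
      linarith
    | succ k ih =>
      intro hk L hL
      have hkn : (k : ℝ) + 1 ≤ n := by exact_mod_cast hk
      have hkh : k * h ≤ u := by
        rw [← hnh]; exact mul_le_mul_of_nonneg_right (by linarith) hh0
      have hb : ∀ p : Fin 9 × ι × ι, N (F p.1 p.2.1 p.2.2 (eul S v μ h k)) ≤ D := fun p =>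
        (eul_bound _ hh0 hkh).trans (hD p)
      have hst := step hT hTZ hadd hzero hcomm hm hm0 (w := eul S v μ h k) (D := D) (U := u)
        (τ := k * h) (h := h) (s := s) (by positivity) hkh hh0 hh1 hs0 hs2
        (hb (0, i0, i0)) (fun j => hb (1, j, i0)) (fun j => hb (2, j, i0)) (fun j => hb (3, j, i0))
        (fun i j => hb (4, i, j)) (fun i j => hb (5, i, j)) (fun i j => hb (6, i, j))
        (by have := hb (7, i0, i0); simpa [F, LinearMap.sum_apply] using this)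
        (fun i => by have := hb (8, i, i0); simpa [F, LinearMap.sum_apply] using this)
        (ih (by omega)) hL
      rw [eul_succ hv]
      push_cast
      have e : ((k : ℝ) + 1) * h = k * h + h := by ring
      rw [e]
      linarith
  intro L hL
  have h1 := key n le_rfl L hL
  rw [hnh] at h1
  have h2 : n * ((u * m + 1 / 2) * (4 * D ^ 2) * s ^ 3 + (3 * m + u * m + 1 / 2) * D ^ 2 * h ^ 2) =
      (u * m + 1 / 2) * (4 * D ^ 2) * (2 * m * u) * s + (3 * m + u * m + 1 / 2) * D ^ 2 * u * h := by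
    have e3 : s ^ 3 = 2 * m * h * s := by rw [← hs2]; ring
    rw [e3, ← hnh]
    ring
  linarith

/-- the maximum principle -/
theorem Sf_le [Nonempty ι] (hT : ∀ i s v, N (T i s v) ≤ N v)
    (hTZ : ∀ i v, Tendsto (fun s : ℝ => N (s⁻¹ • (T i s v - v) - Z i v)) (𝓝[≠] 0) (𝓝 0))
    (hadd : ∀ i s t v, T i (s + t) v = T i s (T i t v)) (hzero : ∀ i v, T i 0 v = v)
    (hcomm : ∀ i v, ∑ j, Z j (Z j (Z i v)) = Z i (∑ j, Z j (Z j v)))
    {κ : Type*} (S : Finset κ) (v : κ → V) (μ : κ → ℝ)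
    (hv : ∀ a ∈ S, ∑ j, Z j (Z j (v a)) = -(μ a) • v a) {u : ℝ} (hu : 0 < u)
    {L : V →ₗ[ℝ] ℝ} (hL : ∀ x, |L x| ≤ N x) :
    Sf Z u (∑ a ∈ S, Real.exp (-u * μ a) • v a) L ≤ 1 / 2 * N (∑ a ∈ S, v a) ^ 2 := by
  obtain ⟨K, K', hK⟩ := iterate hT hTZ hadd hzero hcomm S v μ hv hu
  have hlim : ∀ X : V →ₗ[ℝ] ℝ, Tendsto (fun n : ℕ => X (eul S v μ (u / n) n)) atTop
      (𝓝 (X (∑ a ∈ S, Real.exp (-u * μ a) • v a))) := by
    intro X
    unfold eul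
    simp only [map_sum, map_smul, smul_eq_mul]
    refine tendsto_finsetSum _ fun a _ => Tendsto.mul_const _ ?_
    refine (Real.tendsto_one_add_div_pow_exp (-u * μ a)).congr fun n => ?_
    congr 1
    ring
  have h1 : Tendsto (fun n : ℕ => Sf Z u (eul S v μ (u / n) n) L) atTop
      (𝓝 (Sf Z u (∑ a ∈ S, Real.exp (-u * μ a) • v a) L)) := by
    unfold Sf
    refine Tendsto.add (Tendsto.const_mul _ (tendsto_finsetSum _ fun i _ => ?_))
      (Tendsto.const_mul _ ((hlim L).pow 2))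
    exact (hlim (L ∘ₗ Z i)).pow 2
  have h0 : Tendsto (fun n : ℕ => u / (n : ℝ)) atTop (𝓝 0) := tendsto_const_div_atTop_nhds_zero_nat u
  have h2 : Tendsto (fun n : ℕ => 1 / 2 * N (∑ a ∈ S, v a) ^ 2 +
      (K * √(2 * Fintype.card ι * (u / n)) + K' * (u / n))) atTop
      (𝓝 (1 / 2 * N (∑ a ∈ S, v a) ^ 2 + (K * √(2 * Fintype.card ι * 0) + K' * 0))) :=
    Tendsto.const_add _ (((h0.const_mul _).sqrt.const_mul K).add (h0.const_mul K'))
  rw [mul_zero, Real.sqrt_zero, mul_zero, mul_zero, add_zero, add_zero] at h2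
  refine le_of_tendsto_of_tendsto h1 h2 ?_
  obtain ⟨n0, hn0⟩ := exists_nat_ge u
  filter_upwards [eventually_ge_atTop (n0 + 1)] with n hn
  refine hK n (by omega) (hn0.trans ?_) L hL
  exact_mod_cast (by omega : n0 ≤ n)

end heat

/-- SG-HEAT. `Z i` generate one-parameter groups `T i` of maps preserving the seminorm `N`,
`A = ∑ Z i ^ 2` commutes with the `Z i`; `v = ∑ v a` is a finite sum of eigenvectors of `A`. -/
theorem heat {V : Type*} [AddCommGroup V] [Module ℝ V] (N : Seminorm ℝ V)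
    {ι : Type*} [Fintype ι] (T : ι → ℝ → V →ₗ[ℝ] V) (Z : ι → V →ₗ[ℝ] V)
    (hT : ∀ i s v, N (T i s v) ≤ N v)
    (hTZ : ∀ i v, Tendsto (fun s : ℝ => N (s⁻¹ • (T i s v - v) - Z i v)) (𝓝[≠] 0) (𝓝 0))
    (hadd : ∀ i s t v, T i (s + t) v = T i s (T i t v)) (hzero : ∀ i v, T i 0 v = v)
    (hcomm : ∀ i v, ∑ j, Z j (Z j (Z i v)) = Z i (∑ j, Z j (Z j v)))
    {κ : Type*} (s : Finset κ) (v : κ → V) (μ : κ → ℝ)
    (hv : ∀ a ∈ s, ∑ j, Z j (Z j (v a)) = -(μ a) • v a) {u : ℝ} (hu : 0 < u) :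
    N (∑ a ∈ s, Real.exp (-u * μ a) • v a) ≤ N (∑ a ∈ s, v a) ∧
    ∀ i, N (Z i (∑ a ∈ s, Real.exp (-u * μ a) • v a)) ≤ (√(2 * u))⁻¹ * N (∑ a ∈ s, v a) := by
  rcases isEmpty_or_nonempty ι with hι | hι
  · have e : ∑ a ∈ s, Real.exp (-u * μ a) • v a = ∑ a ∈ s, v a := by
      refine Finset.sum_congr rfl fun a ha => ?_
      have h1 := hv a ha
      rw [Finset.univ_eq_empty, Finset.sum_empty, eq_comm, smul_eq_zero, neg_eq_zero] at h1
      rcases h1 with h1 | h1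
      · rw [h1]; simp
      · rw [h1, smul_zero]
    exact ⟨le_of_eq (by rw [e]), fun i => isEmptyElim i⟩
  · have key : ∀ L : V →ₗ[ℝ] ℝ, (∀ x, |L x| ≤ N x) →
        Sf Z u (∑ a ∈ s, Real.exp (-u * μ a) • v a) L ≤ 1 / 2 * N (∑ a ∈ s, v a) ^ 2 :=
      fun L hL => Sf_le hT hTZ hadd hzero hcomm s v μ hv hu hL
    constructor
    · obtain ⟨L, hL, hLx⟩ := exists_norming N (∑ a ∈ s, Real.exp (-u * μ a) • v a)
      have h1 := key L hL
      unfold Sf at h1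
      rw [hLx] at h1
      have h2 : 0 ≤ u * ∑ i, L (Z i (∑ a ∈ s, Real.exp (-u * μ a) • v a)) ^ 2 :=
        mul_nonneg hu.le (Finset.sum_nonneg fun i _ => sq_nonneg _)
      have h3 : N (∑ a ∈ s, Real.exp (-u * μ a) • v a) ^ 2 ≤ N (∑ a ∈ s, v a) ^ 2 := by linarith
      exact (pow_le_pow_iff_left₀ (apply_nonneg N _) (apply_nonneg N _) two_ne_zero).1 h3
    · intro i
      obtain ⟨L, hL, hLx⟩ := exists_norming N (Z i (∑ a ∈ s, Real.exp (-u * μ a) • v a))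
      have h1 := key L hL
      unfold Sf at h1
      have h2 : L (Z i (∑ a ∈ s, Real.exp (-u * μ a) • v a)) ^ 2 ≤
          ∑ i, L (Z i (∑ a ∈ s, Real.exp (-u * μ a) • v a)) ^ 2 :=
        Finset.single_le_sum (f := fun i => L (Z i (∑ a ∈ s, Real.exp (-u * μ a) • v a)) ^ 2)
          (fun i _ => sq_nonneg _) (Finset.mem_univ i)
      rw [hLx] at h2
      have h3 := mul_le_mul_of_nonneg_left h2 hu.le
      have h4 : u * N (Z i (∑ a ∈ s, Real.exp (-u * μ a) • v a)) ^ 2 ≤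
          1 / 2 * N (∑ a ∈ s, v a) ^ 2 := by
        have : 0 ≤ 1 / 2 * L (∑ a ∈ s, Real.exp (-u * μ a) • v a) ^ 2 := by positivity
        linarith
      have h5 : (√(2 * u) * N (Z i (∑ a ∈ s, Real.exp (-u * μ a) • v a))) ^ 2 ≤
          N (∑ a ∈ s, v a) ^ 2 := by
        rw [mul_pow, Real.sq_sqrt (by positivity)]
        linarith
      have h6 := (pow_le_pow_iff_left₀ (mul_nonneg (Real.sqrt_nonneg _) (apply_nonneg N _))
        (apply_nonneg N _) two_ne_zero).1 h5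
      have h7 : 0 < √(2 * u) := Real.sqrt_pos.2 (by positivity)
      rw [inv_mul_eq_div, le_div_iff₀ h7, mul_comm]
      exact h6

end Pool.Agent.Helper59.SG
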